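import Pool.Agent.H97.RL.Targets

/-!
# PCA: the path through a piece which is a tree (`MP_c62aed_lc`)
-/

set_option autoImplicit false

namespace Pool.Agent.H32.RLM

open Finset Pool.Agent.H97.RK Pool.Agent.H97.RL

theorem noAx {n k m : ℕ} {F : Fml n k m} {j t : ℕ} {y : Fin n → Bool} {A W : Finset (Fin n)}
    {J : Finset (Fin m)} {line : ℕ → Clause n} {i : ℕ} (hSt : St F j t y A W J)
    (hF : Falsified (line i) y) (hv : vs (line i) ⊆ A)
    (hC : Correct F line i (Rule.ax : Rule n)) : False := by
  obtain ⟨c, hc⟩ := hC
  have h1 : ∀ p, F c p ∈ line i := fun p => hc (mem_image_of_mem _ (mem_univ p))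
  have h2 : ∀ p, (F c p).1 ∈ A := fun p => hv (mem_image_of_mem _ (h1 p))
  have h3 : ∀ p, y (F c p).1 ≠ (F c p).2 := fun p => hF _ (h1 p)
  by_cases hcJ : c ∈ J
  · obtain ⟨p, -, hp⟩ := hSt.sat c hcJ
    exact h3 p hp
  · have h4 := hSt.out c hcJ fun p _ => h3 p
    have h5 : out F c (A ∪ W) = 0 := by
      unfold out
      rw [card_eq_zero, filter_eq_empty_iff]
      intro p _ h
      exact h (mem_union_left _ (h2 p))
    omega

/-- falsification depends on the variables of the clause only -/
theorem fals_congr {n : ℕ} {C : Clause n} {y y' : Fin n → Bool} {A : Finset (Fin n)}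
    (hF : Falsified C y) (hv : vs C ⊆ A) (h : ∀ u ∈ A, y' u = y u) : Falsified C y' := by
  intro l hl
  rw [h l.1 (hv (mem_image_of_mem _ hl))]
  exact hF l hl

theorem pf_PCA (hSTQ : T_STQ) (hRST : T_RST) (hFGT : T_FGT) : T_PCA := by
  classical
  intro n k m F j t d e s₀ hP S r line rule hR U an ls hT x z y₀ A₀ l hlS hlr hlU hdst hAt
  obtain ⟨y₁, W₁, J₁, hSt₁, hy₁, hF₁, hcard₁⟩ := hAt
  obtain ⟨B, hB⟩ : ∃ B, B = A₀ ∪ vs (line l) := ⟨_, rfl⟩
  rw [← hB] at hSt₁ hcard₁
  have hA₀B : A₀ ⊆ B := by rw [hB]; exact subset_union_left
  have hlB : vs (line l) ⊆ B := by rw [hB]; exact subset_union_right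
  obtain ⟨y, hy⟩ : ∃ y : Fin n → Bool, y = fun u => if u ∈ B ∪ W₁ then y₁ u else z u := ⟨_, rfl⟩
  have hyy : ∀ u ∈ B ∪ W₁, y u = y₁ u := by
    intro u hu
    rw [hy]
    simp only
    rw [if_pos hu]
  have hyz : ∀ u, u ∉ B ∪ W₁ → y u = z u := by
    intro u hu
    rw [hy]
    simp only
    rw [if_neg hu]
  have hSt : St F j t y B W₁ J₁ := hRST n k m F j t y₁ y B W₁ J₁ hSt₁ hyy
  have hyB : ∀ u ∈ B, y u = y₁ u := fun u hu => hyy u (mem_union_left _ hu)
  have hFl : Falsified (line l) y := fals_congr hF₁ hlB hyB
  have hyA₀ : ∀ u ∈ A₀, y u = y₀ u := fun u hu => by rw [hyB u (hA₀B hu), hy₁ u hu]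
  -- the induction
  have key : ∀ i : ℕ, i < S → i ≤ l → an i = l → ∀ (y' : Fin n → Bool) (A' W' : Finset (Fin n))
      (J' : Finset (Fin m)), St F j t y' A' W' J' →
      A' = B ∪ ((ls i).map Prod.fst).toFinset → Falsified (line i) y' → vs (line i) ⊆ A' →
      (∀ u ∈ B, y' u = y u) → (∀ p ∈ ls i, y' p.1 = p.2) →
      (univ.filter fun v => v ∉ B ∧ y' v ≠ z v).card + J₁.card ≤ W₁.card + J'.card →
      A'.card + e + d ≤ n →
      (∃ i, i < S ∧ an i = l ∧ Ser (line l) (pas (ls i)) (5 * d) x z A₀) ∨
        ∃ l', l' < l ∧ l' ∈ U ∧ At F j t d e line y₀ A₀ l' := by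
    intro i
    induction i using Nat.strong_induction_on with
    | _ i IH =>
      intro hiS hil hani y' A' W' J' hSt' hA' hF' hv' hyB' hls hcnt hcard
      by_cases hbig : A'.card + 1 + e + d ≤ n
      · obtain ⟨hax, i', y'', A'', W'', J'', hi', hSt'', hF'', hv'', hc'', hy'', hd'', hcase⟩ :=
          hSTQ n k m F j t d e s₀ hP S r line rule hR i y' A' W' J' hiS hSt' hF' hv' hbig
        have hBA' : B ⊆ A' := by rw [hA']; exact subset_union_left
        have hA'A'' : A' ⊆ A'' := by
          rcases hcase with ⟨_, h⟩ | ⟨_, _, h, _⟩
          · rw [h]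
          · rw [h]
            exact subset_insert _ _
        by_cases hiU : i' ∈ U
        · right
          refine ⟨i', by omega, hiU, ?_⟩
          have hsub : A₀ ∪ vs (line i') ⊆ A'' :=
            union_subset (hA₀B.trans (hBA'.trans hA'A'')) hv''
          have hcs : (A₀ ∪ vs (line i')).card + e + d ≤ n := by
            have := card_le_card hsub
            omega
          obtain ⟨y₃, W₃, J₃, h1, h2, _⟩ := hFGT n k m F j t d e s₀ hP y'' A''
            (A₀ ∪ vs (line i')) W'' J'' hSt'' hsub hcs
          refine ⟨y₃, W₃, J₃, h1, ?_, ?_, hcs⟩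
          · intro u hu
            rw [h2 u (mem_union_left _ hu), hy'' u (hBA' (hA₀B hu)), hyB' u (hA₀B hu),
              hyA₀ u hu]
          · exact fals_congr hF'' subset_union_right h2
        · have hir : i' ≠ r := by omega
          have hi'S : i' < S := by omega
          have hax' : rule i' ≠ Rule.ax := by
            intro hx
            have hC := hR.2.2 i' hi'S
            rw [hx] at hC
            exact noAx hSt'' hF'' hv'' hC
          have hVA' : ∀ p ∈ ls i, p.1 ∈ A' := by
            intro p hp
            rw [hA']
            refine mem_union_right _ ?_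
            rw [List.mem_toFinset]
            exact List.mem_map_of_mem hp
          have hyB'' : ∀ u ∈ B, y'' u = y u := fun u hu => by
            rw [hy'' u (hBA' hu), hyB' u hu]
          have hold : ∀ p ∈ ls i, y'' p.1 = p.2 := fun p hp => by
            rw [hy'' p.1 (hVA' p hp), hls p hp]
          have hcnt'' : (univ.filter fun v => v ∉ B ∧ y'' v ≠ z v).card + J₁.card ≤
              W₁.card + J''.card := by
            have h1 : (univ.filter fun v => v ∉ B ∧ y'' v ≠ z v).card ≤
                (univ.filter fun v => v ∉ B ∧ y' v ≠ z v).card + dst y'' y' := by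
              unfold dst
              refine (card_le_card ?_).trans (card_union_le _ _)
              intro v hv
              rw [mem_filter] at hv
              rw [mem_union, mem_filter, mem_filter]
              by_cases h : y'' v = y' v
              · left
                exact ⟨mem_univ _, hv.2.1, by rw [← h]; exact hv.2.2⟩
              · right
                exact ⟨mem_univ _, h⟩
            omega
          have hcard'' : A''.card + e + d ≤ n := by omega
          rcases hcase with ⟨hr, hAA⟩ | ⟨v, a, hAA, ⟨hr, hyv⟩ | ⟨hr, hyv⟩⟩
          · obtain ⟨t1, t2⟩ := hT.weak i i' hiS hiU hir hax' hr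
            refine IH i' hi' hi'S (by omega) (by rw [t1, hani]) y'' A'' W'' J'' hSt'' ?_ hF''
              hv'' hyB'' ?_ hcnt'' hcard''
            · rw [hAA, t2]
              exact hA'
            · rw [t2]
              exact hold
          · obtain ⟨t1, t2⟩ := hT.left i i' a v hiS hiU hir hax' hr
            refine IH i' hi' hi'S (by omega) (by rw [t1, hani]) y'' A'' W'' J'' hSt'' ?_ hF''
              hv'' hyB'' ?_ hcnt'' hcard''
            · rw [hAA, t2, hA', List.map_cons, List.toFinset_cons, union_insert]
            · rw [t2]
              intro p hp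
              rcases List.mem_cons.mp hp with h | h
              · rw [h]
                exact hyv
              · exact hold p h
          · obtain ⟨t1, t2⟩ := hT.right i i' a v hiS hiU hir hax' hr
            refine IH i' hi' hi'S (by omega) (by rw [t1, hani]) y'' A'' W'' J'' hSt'' ?_ hF''
              hv'' hyB'' ?_ hcnt'' hcard''
            · rw [hAA, t2, hA', List.map_cons, List.toFinset_cons, union_insert]
            · rw [t2]
              intro p hp
              rcases List.mem_cons.mp hp with h | h
              · rw [h]
                exact hyv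
              · exact hold p h
      · -- the end of the path
        left
        refine ⟨i, hiS, hani, y', fals_congr hFl hlB hyB', (univ.filter fun v => v ∈ A₀ ∧
          y' v ≠ x v) ∪ (univ.filter fun v => v ∉ B ∧ y' v ≠ z v) ∪ (univ \ A'), ?_, ?_⟩
        · have h1 : (univ.filter fun v => v ∈ A₀ ∧ y' v ≠ x v).card ≤ t := by
            refine (card_le_card ?_).trans hdst
            intro v hv
            rw [mem_filter] at hv ⊢
            refine ⟨mem_univ _, ?_⟩
            rw [← hyA₀ v hv.2.1, ← hyB' v (hA₀B hv.2.1)]
            exact hv.2.2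
          have h2 : (univ \ A').card ≤ e + d := by
            have h3 := card_sdiff_add_card_eq_card (subset_univ A')
            rw [card_univ, Fintype.card_fin] at h3
            omega
          have h3 := hSt₁.crd
          have h4 := hSt₁.lt
          have h5 := hSt'.lt
          have h6 : j * J₁.card ≤ j * t := Nat.mul_le_mul_left _ h4.le
          have h7 := hP.je
          have h8 := hP.te
          have h9 := hP.ed
          have h10 := card_union_le ((univ.filter fun v => v ∈ A₀ ∧
            y' v ≠ x v) ∪ (univ.filter fun v => v ∉ B ∧ y' v ≠ z v)) (univ \ A')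
          have h11 := card_union_le (univ.filter fun v => v ∈ A₀ ∧ y' v ≠ x v)
            (univ.filter fun v => v ∉ B ∧ y' v ≠ z v)
          omega
        · intro v hv
          rw [mem_union, mem_union, not_or, not_or, mem_filter, mem_filter, mem_sdiff] at hv
          obtain ⟨⟨n1, n2⟩, n3⟩ := hv
          have hvA' : v ∈ A' := by
            by_contra h
            exact n3 ⟨mem_univ _, h⟩
          have e1 : v ∈ A₀ → x v = y' v := by
            intro h
            by_contra hne
            exact n1 ⟨mem_univ _, h, fun h' => hne h'.symm⟩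
          have e2 : v ∉ B → z v = y' v := by
            intro h
            by_contra hne
            exact n2 ⟨mem_univ _, h, fun h' => hne h'.symm⟩
          refine ⟨fun _ h => e1 h, fun hvl => ⟨fun b hb => ?_, fun hnone => ?_⟩⟩
          · have hmem : (v, b) ∈ ls i := by
              unfold pas at hb
              rw [Option.map_eq_some_iff] at hb
              obtain ⟨p, hp1, hp2⟩ := hb
              have hp3 := List.find?_some hp1
              have hp4 := List.mem_of_find?_eq_some hp1
              simp only [decide_eq_true_eq] at hp3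
              have : p = (v, b) := Prod.ext hp3 hp2
              rw [← this]
              exact hp4
            have hyb : y' v = b := hls (v, b) hmem
            constructor
            · intro h
              rw [e1 h, hyb]
            · intro h
              have hvB : v ∉ B := by
                rw [hB, mem_union, not_or]
                exact ⟨h, hvl⟩
              rw [e2 hvB, hyb]
          · have hVnot : v ∉ ((ls i).map Prod.fst).toFinset := by
              rw [List.mem_toFinset, List.mem_map]
              rintro ⟨p, hp1, hp2⟩
              unfold pas at hnone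
              rw [Option.map_eq_none_iff, List.find?_eq_none] at hnone
              exact hnone p hp1 (by simpa using hp2)
            rw [hA', mem_union] at hvA'
            have hvB := hvA'.resolve_right hVnot
            rw [hB, mem_union] at hvB
            exact hvB.resolve_right hvl
  obtain ⟨b1, b2⟩ := hT.base l hlU
  refine key l hlS le_rfl b1 y B W₁ J₁ hSt ?_ hFl hlB (fun u _ => rfl) ?_ ?_ hcard₁
  · rw [b2]
    simp
  · rw [b2]
    intro p hp
    exact absurd hp (List.not_mem_nil)
  · have h1 : (univ.filter fun v => v ∉ B ∧ y v ≠ z v).card ≤ W₁.card := by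
      refine card_le_card ?_
      intro v hv
      rw [mem_filter] at hv
      by_contra h
      refine hv.2.2 (hyz v ?_)
      rw [mem_union, not_or]
      exact ⟨hv.2.1, h⟩
    omega

end Pool.Agent.H32.RLM
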